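import Mathlib

/-!
# Compact hyperbolic surfaces, Laplace eigenfunctions and the quantum measures

`ℍ` is the hyperbolic plane of Mathlib (upper half-plane, `UpperHalfPlane`) with its distance,
its area `dx dy / y ^ 2` (`volume`) and the action of `SL(2, ℝ)`.
-/

set_option autoImplicit false

open MeasureTheory UpperHalfPlane
open scoped MatrixGroups ComplexConjugate Laplacian

namespace Pool.Agent.helper98.QUE

/-- `Γ` is a discrete cocompact subgroup of `SL(2, ℝ)` acting freely on the hyperbolic plane, so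
that `M = Γ \ ℍ` is a compact hyperbolic surface (and every closed orientable hyperbolic surface is
obtained in this way). -/
structure IsSurfaceGroup (Γ : Subgroup SL(2, ℝ)) : Prop where
  discrete : ∀ K : Set ℍ, IsCompact K → {γ : SL(2, ℝ) | γ ∈ Γ ∧ ∃ z ∈ K, γ • z ∈ K}.Finite
  cocompact : ∃ K : Set ℍ, IsCompact K ∧ ∀ z : ℍ, ∃ γ ∈ Γ, γ • z ∈ K
  free : ∀ γ ∈ Γ, ∀ z : ℍ, γ • z = z → γ = 1

/-- `f` is `Γ`-invariant, i.e. a function on `M = Γ \ ℍ`. -/
def IsInvariant {α : Type*} (Γ : Subgroup SL(2, ℝ)) (f : ℍ → α) : Prop :=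
  ∀ γ ∈ Γ, ∀ z : ℍ, f (γ • z) = f z

/-- `φ` is of class `C ^ 2` and `y ^ 2 (φ_xx + φ_yy) = - lam * φ`: eigenfunction of the hyperbolic
Laplacian. -/
def IsEigenfunction (lam : ℝ) (φ : ℍ → ℂ) : Prop :=
  ContDiffOn ℝ 2 (φ ∘ ofComplex) {z : ℂ | 0 < z.im} ∧
    ∀ z : ℍ, ((z.im : ℂ) ^ 2) * (Δ (φ ∘ ofComplex)) (z : ℂ) = -(lam : ℂ) * φ z

/-- `(φ j)` is an orthonormal basis of `L ^ 2 (M)`, `M = Γ \ ℍ`, of eigenfunctions of the Laplacian
with eigenvalues `lam j`. `F` is a fundamental domain of `Γ`, so that `∫ z in F` is the integral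
over `M`. -/
structure IsEigenbasis (Γ : Subgroup SL(2, ℝ)) (F : Set ℍ) (φ : ℕ → ℍ → ℂ) (lam : ℕ → ℝ) :
    Prop where
  invariant : ∀ j, IsInvariant Γ (φ j)
  eigen : ∀ j, IsEigenfunction (lam j) (φ j)
  orthonormal : ∀ i j, ∫ z in F, conj (φ i z) * φ j z = if i = j then 1 else 0
  complete : ∀ u : ℍ → ℂ, MemLp u 2 (volume.restrict F) →
    (∀ j, ∫ z in F, conj (φ j z) * u z = 0) → u =ᵐ[volume.restrict F] 0

/-- The mean value of `f` over `M`. -/
noncomputable def mean (F : Set ℍ) (f : ℍ → ℝ) : ℝ := (∫ z in F, f z) / (volume F).toReal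

/-- The deviation `∫ f dμ_φ - mean f`, `dμ_φ = |φ| ^ 2 dvol`. -/
noncomputable def dev (F : Set ℍ) (f : ℍ → ℝ) (φ : ℍ → ℂ) : ℝ :=
  (∫ z in F, f z * ‖φ z‖ ^ 2) - mean F f

/-- `z` projects to a point of a closed geodesic of length `l` of `M = Γ \ ℍ`: some `γ ∈ Γ` with
minimal displacement `l` moves `z` by `l`. -/
def OnGeodesic (Γ : Subgroup SL(2, ℝ)) (l : ℝ) (z : ℍ) : Prop :=
  ∃ γ ∈ Γ, dist z (γ • z) = l ∧ ∀ w : ℍ, l ≤ dist w (γ • w)

end Pool.Agent.helper98.QUE
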